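import Mathlib
import Pool.Agent.Lib.helper32.ProdBd

set_option autoImplicit false

namespace Pool.Agent.Results.MP_da2089_gt.Product

open Set Pool.Agent.Lib.helper32.ProdBd

universe u v

/-- coarse structures: contain the diagonal, closed under subsets, finite unions, inverses, compositions -/
def Coarse {X : Type u} (𝓔 : Set (Set (X × X))) : Prop :=
  diagonal X ∈ 𝓔 ∧ (∀ E ∈ 𝓔, ∀ F, F ⊆ E → F ∈ 𝓔) ∧ (∀ E ∈ 𝓔, ∀ F ∈ 𝓔, E ∪ F ∈ 𝓔) ∧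
    (∀ E ∈ 𝓔, Prod.swap ⁻¹' E ∈ 𝓔) ∧ ∀ E ∈ 𝓔, ∀ F ∈ 𝓔, {p | ∃ y, (p.1, y) ∈ E ∧ (y, p.2) ∈ F} ∈ 𝓔

/-- balleans: connected coarse structures -/
def Ballean {X : Type u} (𝓔 : Set (Set (X × X))) : Prop := Coarse 𝓔 ∧ ⋃₀ 𝓔 = univ

/-- `E[x]` -/
def ball {X : Type u} (E : Set (X × X)) (x : X) : Set X := {y | (x, y) ∈ E}

def Bdd {X : Type u} (𝓔 : Set (Set (X × X))) (A : Set X) : Prop := ∃ E ∈ 𝓔, ∃ x, A ⊆ ball E x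

/-- the set `{((x,y),(x',y')) : (x,x') ∈ E, (y,y') ∈ F}` -/
def pr {X : Type u} {Y : Type v} (E : Set (X × X)) (F : Set (Y × Y)) : Set ((X × Y) × (X × Y)) :=
  {p | (p.1.1, p.2.1) ∈ E ∧ (p.1.2, p.2.2) ∈ F}

/-- eventually macro-uniform functions -/
def EMU {X : Type u} (𝓔 : Set (Set (X × X))) (f : X → ℝ) : Prop :=
  ∀ E ∈ 𝓔, ∃ B, Bdd 𝓔 B ∧ ⨆ x ∈ Bᶜ, Metric.ediam (f '' ball E x) < ⊤

def EmuBounded {X : Type u} (𝓔 : Set (Set (X × X))) : Prop :=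
  ∀ f : X → ℝ, EMU 𝓔 f → ∃ B, Bdd 𝓔 B ∧ ∃ M, ∀ x ∉ B, |f x| ≤ M

/-- the product ballean: the subsets of the sets `pr E F` -/
def prod {X : Type u} {Y : Type v} (𝓔 : Set (Set (X × X))) (𝓕 : Set (Set (Y × Y))) :
    Set (Set ((X × Y) × (X × Y))) := {D | ∃ E ∈ 𝓔, ∃ F ∈ 𝓕, D ⊆ pr E F}

theorem idl {X : Type u} {𝓔 : Set (Set (X × X))} (h : Ballean 𝓔) : Idl (Bdd 𝓔) := by
  refine ⟨fun A B ⟨E, hE, x, hx⟩ hB => ⟨E, hE, x, hB.trans hx⟩, fun A B ⟨E, hE, x, hx⟩ ⟨F, hF, y, hy⟩ => ?_⟩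
  obtain ⟨G, hG, hxy⟩ : (x, y) ∈ ⋃₀ 𝓔 := h.2 ▸ mem_univ _
  exact ⟨_, h.1.2.2.1 E hE _ (h.1.2.2.2.2 G hG F hF), x,
    union_subset (fun z hz => Or.inl (hx hz)) fun z hz => Or.inr ⟨y, hxy, hy hz⟩⟩

theorem emu_of {X : Type u} {𝓔 : Set (Set (X × X))} {g : X → ℝ}
    (h : ∀ E ∈ 𝓔, ∃ C A, Bdd 𝓔 A ∧ ∀ x ∉ A, Metric.ediam (g '' ball E x) ≤ ENNReal.ofReal C) : EMU 𝓔 g :=
  fun E hE => by
    obtain ⟨C, A, hA, h⟩ := h E hE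
    exact ⟨A, hA, (iSup₂_le h).trans_lt ENNReal.ofReal_lt_top⟩

/-- Q1: the product of two emu-bounded balleans is emu-bounded -/
theorem result {X : Type u} {Y : Type v} (𝓔 : Set (Set (X × X))) (𝓕 : Set (Set (Y × Y))) (h𝓔 : Ballean 𝓔)
    (h𝓕 : Ballean 𝓕) (hX : EmuBounded 𝓔) (hY : EmuBounded 𝓕) : EmuBounded (prod 𝓔 𝓕) := by
  intro φ hφ
  let P : Set (X × X) → Set (Y × Y) → ℝ → Prop := fun E F C => 0 ≤ C ∧ ∃ A B, Bdd 𝓔 A ∧ Bdd 𝓕 B ∧ ∀ p ∉ A ×ˢ B,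
      Metric.ediam (φ '' {q | (p.1, q.1) ∈ E ∧ (p.2, q.2) ∈ F}) ≤ ENNReal.ofReal C
  have hex : ∀ E ∈ 𝓔, ∀ F ∈ 𝓕, ∃ C, P E F C := fun E hE F hF => by
    obtain ⟨B, ⟨D, ⟨E', hE', F', hF', hD'⟩, p, hp⟩, h⟩ := hφ _ ⟨E, hE, F, hF, subset_rfl⟩
    refine ⟨_, ENNReal.toReal_nonneg (a := ⨆ x ∈ Bᶜ, Metric.ediam (φ '' ball (pr E F) x)), _, _,
      ⟨E', hE', p.1, subset_rfl⟩, ⟨F', hF', p.2, subset_rfl⟩, fun q hq => ?_⟩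
    rw [ENNReal.ofReal_toReal h.ne]
    exact le_iSup₂_of_le q (fun h => hq (hD' (hp h))) le_rfl
  obtain ⟨A, B, M, ⟨E, hE, x, hx⟩, ⟨F, hF, y, hy⟩, h⟩ := glue h𝓔.1.1 (fun _ => rfl) h𝓕.1.1 (fun _ => rfl) (idl h𝓔)
    (idl h𝓕) (fun _ h => h) (fun _ h => h) φ P (fun _ _ _ _ _ h => h) hex
    (fun g hg => by
      obtain ⟨B, hB, M, h⟩ := hX g (emu_of fun E hE => by
        obtain ⟨C, hC⟩ := hex E hE _ h𝓕.1.1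
        exact ⟨C, hg E hE C hC⟩)
      exact ⟨B, M, hB, h⟩)
    (fun g hg => by
      obtain ⟨B, hB, M, h⟩ := hY g (emu_of fun F hF => by
        obtain ⟨C, hC⟩ := hex _ h𝓔.1.1 F hF
        exact ⟨C, hg F hF C hC⟩)
      exact ⟨B, M, hB, h⟩)
  exact ⟨_, ⟨_, ⟨E, hE, F, hF, subset_rfl⟩, (x, y), fun p hp => ⟨hx hp.1, hy hp.2⟩⟩, M, h⟩

end Pool.Agent.Results.MP_da2089_gt.Product
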